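import Pool.Agent.Helper71.EK.Tr

/-!
The box test for a copositive 2x2 form (and one more polynomial), and trees of boxes:
cones at the origin and at infinity.
-/

set_option autoImplicit false

namespace Pool.EK71

/-- what is proved at a point -/
def Cop (D : Dat) (x y : ℝ) : Prop :=
  (∀ s c : ℝ, 0 ≤ s → 0 ≤ c →
    0 ≤ ev2 x y D.P11 * s ^ 2 + 2 * ev2 x y D.P12 * (s * c) + ev2 x y D.P22 * c ^ 2) ∧
  0 ≤ ev2 x y D.Q

/-- the tests of the form, given the three numbers -/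
def ctst (N W H : ℕ) (l : ℕ) (v11 v12 v22 : ℤ) : Bool :=
  tst N W H v11 && tst N W H v22 &&
  (match l with
   | 0 => tst N W H v12
   | m + 1 => tst N W H (Int.add (Int.mul 16 v11) (Int.mul (Int.ofNat (m + 1)) v12)) &&
      tst N W H (Int.add (Int.mul (Int.ofNat (m + 1)) v22) (Int.mul 16 v12)))

/-- the norm test -/
def nctst (H l c11 c12 c22 : ℕ) : Bool :=
  Nat.blt (16 * c11 + (l + 1) * c12) H && Nat.blt ((l + 1) * c22 + 16 * c12) H

def frm3 (kind : ℕ) (X1 X0 Y1 Y0 : ℤ) : ℤ × ℤ × ℤ :=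
  match kind with
  | 0 => (Int.mul X1 Y0, Int.mul X0 Y1, Int.mul X0 Y0)
  | 1 => (Int.mul X1 Y0, Int.mul X1 Y1, Int.mul X0 Y0)
  | 2 => (Int.mul X1 Y1, Int.mul X1 Y0, Int.mul X0 Y0)
  | 3 => (Int.mul (Int.neg X1) Y0, Int.mul X1 Y1, Int.mul X0 Y0)
  | _ => (Int.mul X1 Y1, Int.mul (Int.neg X1) Y0, Int.mul X0 Y0)

def nfrm3 (kind : ℕ) (X1 X0 Y1 Y0 : ℕ) : ℕ × ℕ × ℕ :=
  match kind with
  | 0 => (X1 * Y0, X0 * Y1, X0 * Y0)
  | 1 => (X1 * Y0, X1 * Y1, X0 * Y0)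
  | 2 => (X1 * Y1, X1 * Y0, X0 * Y0)
  | 3 => (X1 * Y0, X1 * Y1, X0 * Y0)
  | _ => (X1 * Y1, X1 * Y0, X0 * Y0)

/-- test of a box: `x`-part `(a,b,e,g)`, `y`-part `(c,d,e')` -/
def bx3 (D : Dat) (kind : ℕ) (l : ℕ) (a b e g c d e' : ℤ) : Bool :=
  let W := 2 * D.H
  let w : ℤ := Int.ofNat W
  let z : ℤ := Int.ofNat (W ^ (D.N + 1))
  let z' : ℤ := Int.ofNat (W ^ (D.N' + 1))
  let Y1 := Int.add c (Int.mul d w)
  let Y0 := Int.add e' (Int.mul e' w)
  let F := frm3 kind (Int.add a (Int.mul b z)) (Int.add e (Int.mul g z)) Y1 Y0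
  let F' := frm3 kind (Int.add a (Int.mul b z')) (Int.add e (Int.mul g z')) Y1 Y0
  let n := nfrm3 kind (a.natAbs + b.natAbs) (e.natAbs + g.natAbs) (c.natAbs + d.natAbs)
    (e'.natAbs + e'.natAbs)
  ctst D.N W D.H l (hpol F.1 F.2.1 F.2.2 D.P11) (hpol F.1 F.2.1 F.2.2 D.P12)
    (hpol F.1 F.2.1 F.2.2 D.P22) &&
  nctst D.H l (npol n.1 n.2.1 n.2.2 D.P11) (npol n.1 n.2.1 n.2.2 D.P12)
    (npol n.1 n.2.1 n.2.2 D.P22) &&
  tst D.N' W D.H (hpol F'.1 F'.2.1 F'.2.2 D.Q) &&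
  Nat.blt (npol n.1 n.2.1 n.2.2 D.Q) D.H

lemma cop_of {u v w l : ℝ} (hl : 0 < l) (hu : 0 ≤ u) (hw : 0 ≤ w) (h1 : 0 ≤ 16 * u + l * v)
    (h3 : 0 ≤ l * w + 16 * v) {s c : ℝ} (hs : 0 ≤ s) (hc : 0 ≤ c) :
    0 ≤ u * s ^ 2 + 2 * v * (s * c) + w * c ^ 2 := by
  rcases le_total 0 v with hv | hv
  · positivity
  · have a1 : l * (-v) ≤ 16 * u := by linarith
    have a2 : 16 * (-v) ≤ l * w := by linarith
    have key : (16 * l) * (u * s ^ 2 + 2 * v * (s * c) + w * c ^ 2) =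
        l * s ^ 2 * (16 * u - l * (-v)) + 16 * c ^ 2 * (l * w - 16 * (-v))
        + (-v) * (l * s - 16 * c) ^ 2 := by ring
    have : 0 ≤ (16 * l) * (u * s ^ 2 + 2 * v * (s * c) + w * c ^ 2) := by
      rw [key]
      have b1 : 0 ≤ 16 * u - l * (-v) := by linarith
      have b2 : 0 ≤ l * w - 16 * (-v) := by linarith
      have b3 : 0 ≤ -v := by linarith
      positivity
    exact nonneg_of_mul_nonneg_right this (by positivity)

/-- abstract soundness: the three forms represent `Cφ x`, `Cφ y`, `Cφ` -/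
lemma bx3_sound {D : Dat} (hs : D.shape = true) {kind l : ℕ} {a b e g c d e' : ℤ}
    (hb : bx3 D kind l a b e g c d e' = true) {T0 T1 V0 V1 : ℝ} (hT0 : 0 ≤ T0) (hT1 : 0 ≤ T1)
    (hV0 : 0 ≤ V0) (hV1 : 0 ≤ V1) {x y Cφ : ℝ} (hCpos : 0 < Cφ)
    (hF : ∀ Z W : ℤ,
      Mk Z W T0 T1 V0 V1 (nfrm3 kind (a.natAbs + b.natAbs) (e.natAbs + g.natAbs)
        (c.natAbs + d.natAbs) (e'.natAbs + e'.natAbs)).1
        (frm3 kind (a + b * Z) (e + g * Z) (c + d * W) (e' + e' * W)).1 (Cφ * x) ∧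
      Mk Z W T0 T1 V0 V1 (nfrm3 kind (a.natAbs + b.natAbs) (e.natAbs + g.natAbs)
        (c.natAbs + d.natAbs) (e'.natAbs + e'.natAbs)).2.1
        (frm3 kind (a + b * Z) (e + g * Z) (c + d * W) (e' + e' * W)).2.1 (Cφ * y) ∧
      Mk Z W T0 T1 V0 V1 (nfrm3 kind (a.natAbs + b.natAbs) (e.natAbs + g.natAbs)
        (c.natAbs + d.natAbs) (e'.natAbs + e'.natAbs)).2.2
        (frm3 kind (a + b * Z) (e + g * Z) (c + d * W) (e' + e' * W)).2.2 Cφ) :
    Cop D x y := by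
  simp only [bx3, Bool.and_eq_true] at hb
  obtain ⟨⟨⟨h4, hn⟩, hq⟩, hqn⟩ := hb
  simp only [ctst, Bool.and_eq_true] at h4
  obtain ⟨⟨t11, t22⟩, t3⟩ := h4
  simp only [nctst, Bool.and_eq_true] at hn
  obtain ⟨n1, n2⟩ := hn
  have n1 := Eq.mp Nat.blt_eq n1
  have n2 := Eq.mp Nat.blt_eq n2
  have hqn := Eq.mp Nat.blt_eq hqn
  simp only [Dat.shape, Bool.and_eq_true] at hs
  obtain ⟨⟨⟨s11, s12⟩, s22⟩, sQ⟩ := hs
  have hW : 2 * D.H = 2 * D.H := rfl
  have cW : (Int.ofNat (2 * D.H) : ℤ) = ((2 * D.H : ℕ) : ℤ) := rfl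
  have cZ : (Int.ofNat ((2 * D.H) ^ (D.N + 1)) : ℤ) = ((2 * D.H : ℕ) : ℤ) ^ (D.N + 1) := by
    show (((2 * D.H) ^ (D.N + 1) : ℕ) : ℤ) = _
    push_cast; ring
  have cZ' : (Int.ofNat ((2 * D.H) ^ (D.N' + 1)) : ℤ) = ((2 * D.H : ℕ) : ℤ) ^ (D.N' + 1) := by
    show (((2 * D.H) ^ (D.N' + 1) : ℕ) : ℤ) = _
    push_cast; ring
  obtain ⟨fA, fB, fC⟩ := hF (((2 * D.H : ℕ) : ℤ) ^ (D.N + 1)) ((2 * D.H : ℕ) : ℤ)
  obtain ⟨gA, gB, gC⟩ := hF (((2 * D.H : ℕ) : ℤ) ^ (D.N' + 1)) ((2 * D.H : ℕ) : ℤ)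
  rw [cW, cZ] at t11 t22 t3
  rw [cW, cZ'] at hq
  set nA := (nfrm3 kind (a.natAbs + b.natAbs) (e.natAbs + g.natAbs) (c.natAbs + d.natAbs)
    (e'.natAbs + e'.natAbs)).1
  set nB := (nfrm3 kind (a.natAbs + b.natAbs) (e.natAbs + g.natAbs) (c.natAbs + d.natAbs)
    (e'.natAbs + e'.natAbs)).2.1
  set nC := (nfrm3 kind (a.natAbs + b.natAbs) (e.natAbs + g.natAbs) (c.natAbs + d.natAbs)
    (e'.natAbs + e'.natAbs)).2.2
  have m11 : npol nA nB nC D.P11 < D.H := by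
    have h1 : npol nA nB nC D.P11 ≤ 16 * npol nA nB nC D.P11 + (l + 1) * npol nA nB nC D.P12 := by
      nlinarith [Nat.zero_le ((l + 1) * npol nA nB nC D.P12)]
    omega
  have m12 : npol nA nB nC D.P12 < D.H := by
    have h1 : npol nA nB nC D.P12 ≤ (l + 1) * npol nA nB nC D.P22 + 16 * npol nA nB nC D.P12 := by
      nlinarith [Nat.zero_le ((l + 1) * npol nA nB nC D.P22)]
    omega
  have m22 : npol nA nB nC D.P22 < D.H := by
    have h1 : npol nA nB nC D.P22 ≤ (l + 1) * npol nA nB nC D.P22 + 16 * npol nA nB nC D.P12 := by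
      nlinarith [Nat.zero_le (l * npol nA nB nC D.P22)]
    omega
  have r11 := box_pos hW s11 hT0 hT1 hV0 hV1 hCpos fA fB fC m11 t11
  have r22 := box_pos hW s22 hT0 hT1 hV0 hV1 hCpos fA fB fC m22 t22
  have r5 := box_pos hW sQ hT0 hT1 hV0 hV1 hCpos gA gB gC hqn hq
  refine ⟨?_, r5⟩
  intro s c hs0 hc0
  rcases Nat.eq_zero_or_pos l with hl0 | hlpos
  · subst hl0
    have r12 := box_pos hW s12 hT0 hT1 hV0 hV1 hCpos fA fB fC m12 t3
    positivity
  · obtain ⟨m, rfl⟩ : ∃ m, l = m + 1 := ⟨l - 1, by omega⟩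
    simp only [Bool.and_eq_true] at t3
    obtain ⟨t1, t2⟩ := t3
    have k1 : 16 * npol nA nB nC D.P11 + (m + 1) * npol nA nB nC D.P12 < D.H := by
      nlinarith [Nat.zero_le (npol nA nB nC D.P12)]
    have k2 : (m + 1) * npol nA nB nC D.P22 + 16 * npol nA nB nC D.P12 < D.H := by
      nlinarith [Nat.zero_le (npol nA nB nC D.P22)]
    have ea : (((m + 1 : ℕ) : ℤ)).natAbs = m + 1 := Int.natAbs_natCast _
    have r1 := box_pos2 hW s11 s12 16 ((m + 1 : ℕ) : ℤ) hT0 hT1 hV0 hV1 hCpos fA fB fC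
      (by rw [ea]; exact k1) t1
    have r3 := box_pos2 hW s22 s12 ((m + 1 : ℕ) : ℤ) 16 hT0 hT1 hV0 hV1 hCpos fA fB fC
      (by rw [ea]; exact k2) t2
    have hl' : (0 : ℝ) < ((m + 1 : ℕ) : ℝ) := by positivity
    push_cast at r1 r3 hl'
    exact cop_of hl' r11 r22 r1 r3 hs0 hc0

/-- relation between the point and the values of the forms -/
def Rel (kind : ℕ) (X1 X0 Y1 Y0 x y : ℝ) : Prop :=
  match kind with
  | 0 => X0 * x = X1 ∧ Y0 * y = Y1
  | 1 => X0 * x = X1 ∧ X0 * Y0 * y = X1 * Y1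
  | 2 => X0 * Y0 * x = X1 * Y1 ∧ X0 * y = X1
  | 3 => X0 * x = -X1 ∧ X0 * Y0 * y = X1 * Y1
  | _ => X0 * Y0 * x = X1 * Y1 ∧ X0 * y = -X1

lemma cop_box {D : Dat} (hs : D.shape = true) {kind l : ℕ} {a b e g c d e' : ℤ}
    (hb : bx3 D kind l a b e g c d e' = true) {T0 T1 V0 V1 : ℝ} (hT0 : 0 ≤ T0) (hT1 : 0 ≤ T1)
    (hV0 : 0 ≤ V0) (hV1 : 0 ≤ V1) {x y X1 X0 Y1 Y0 : ℝ}
    (hX1 : X1 = a * T0 + b * T1) (hX0 : X0 = e * T0 + g * T1) (hY1 : Y1 = c * V0 + d * V1)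
    (hY0 : Y0 = e' * V0 + e' * V1) (pX : 0 < X0) (pY : 0 < Y0)
    (hR : Rel kind X1 X0 Y1 Y0 x y) : Cop D x y := by
  refine bx3_sound hs hb hT0 hT1 hV0 hV1 (Cφ := X0 * Y0) (by positivity) (fun Z W => ?_)
  obtain ⟨p1, p2, p3, p4, p5⟩ := mk_frm (Z := Z) (W := W) (T0 := T0) (T1 := T1)
    (V0 := V0) (V1 := V1) a b e g c d e' hX1 hX0 hY1 hY0
  match kind, hR with
  | 0, hR =>
    obtain ⟨e1, e2⟩ := hR
    refine ⟨?_, ?_, p3⟩
    · rw [show X0 * Y0 * x = X1 * Y0 by linear_combination Y0 * e1]; exact p1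
    · rw [show X0 * Y0 * y = X0 * Y1 by linear_combination X0 * e2]; exact p2
  | 1, hR =>
    obtain ⟨e1, e2⟩ := hR
    refine ⟨?_, ?_, p3⟩
    · rw [show X0 * Y0 * x = X1 * Y0 by linear_combination Y0 * e1]; exact p1
    · rw [e2]; exact p4
  | 2, hR =>
    obtain ⟨e1, e2⟩ := hR
    refine ⟨?_, ?_, p3⟩
    · rw [e1]; exact p4
    · rw [show X0 * Y0 * y = X1 * Y0 by linear_combination Y0 * e2]; exact p1
  | 3, hR =>
    obtain ⟨e1, e2⟩ := hR
    refine ⟨?_, ?_, p3⟩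
    · rw [show X0 * Y0 * x = -X1 * Y0 by linear_combination Y0 * e1]; exact p5
    · rw [e2]; exact p4
  | (n + 4), hR =>
    obtain ⟨e1, e2⟩ := hR
    refine ⟨?_, ?_, p3⟩
    · rw [e1]; exact p4
    · rw [show X0 * Y0 * y = -X1 * Y0 by linear_combination Y0 * e2]; exact p5

/-! ### inner and outer boxes -/

/-- the point of kind `kind` with parameters `(p, v)`; `o`: `p` is replaced by `1/p` -/
def At3 (o : Bool) (kind : ℕ) (p v x y : ℝ) : Prop :=
  match o with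
  | false => Rel kind p 1 v 1 x y
  | true => 0 < p ∧ Rel kind 1 p v 1 x y

lemma Rel.scale {kind : ℕ} {X1 X0 Y1 Y0 x y l m : ℝ} (h : Rel kind X1 X0 Y1 Y0 x y) :
    Rel kind (l * X1) (l * X0) (m * Y1) (m * Y0) x y := by
  match kind, h with
  | 0, h => exact ⟨by linear_combination l * h.1, by linear_combination m * h.2⟩
  | 1, h => exact ⟨by linear_combination l * h.1, by linear_combination l * m * h.2⟩
  | 2, h => exact ⟨by linear_combination l * m * h.1, by linear_combination l * h.2⟩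
  | 3, h => exact ⟨by linear_combination l * h.1, by linear_combination l * m * h.2⟩
  | (n + 4), h => exact ⟨by linear_combination l * m * h.1, by linear_combination l * h.2⟩

def bxo (D : Dat) (o : Bool) (kind : ℕ) (e : ℤ) (l : ℕ) (a b c d : ℤ) : Bool :=
  match o with
  | false => bx3 D kind l a b e e c d e
  | true => bx3 D kind l e e a b c d e

lemma cop_at {D : Dat} (hs : D.shape = true) {o : Bool} {kind l : ℕ} {a b c d e : ℤ}
    (he : 0 < e) (hab : a < b) (hcd : c < d) (hb : bxo D o kind e l a b c d = true)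
    {p v x y : ℝ} (hA : At3 o kind p v x y) (h1 : (a : ℝ) ≤ e * p)
    (h2 : e * p ≤ (b : ℝ)) (h3 : (c : ℝ) ≤ e * v) (h4 : e * v ≤ (d : ℝ)) : Cop D x y := by
  have he' : (0 : ℝ) < e := by exact_mod_cast he
  have hab' : (0 : ℝ) < b - a := by have : (a : ℝ) < b := by exact_mod_cast hab
                                    linarith
  have hcd' : (0 : ℝ) < d - c := by have : (c : ℝ) < d := by exact_mod_cast hcd
                                    linarith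
  match o, hA, hb with
  | false, hA, hb =>
    refine cop_box hs hb (T0 := b - e * p) (T1 := e * p - a) (V0 := d - e * v)
      (V1 := e * v - c) (by linarith) (by linarith) (by linarith) (by linarith)
      (X1 := (b - a) * e * p) (X0 := (b - a) * e * 1) (Y1 := (d - c) * e * v)
      (Y0 := (d - c) * e * 1) (by ring) (by ring) (by ring) (by ring) (by positivity)
      (by positivity) hA.scale
  | true, hA, hb =>
    obtain ⟨hp, hA⟩ := hA
    refine cop_box hs hb (T0 := b - e * p) (T1 := e * p - a) (V0 := d - e * v)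
      (V1 := e * v - c) (by linarith) (by linarith) (by linarith) (by linarith)
      (X1 := (b - a) * e * 1) (X0 := (b - a) * e * p) (Y1 := (d - c) * e * v)
      (Y0 := (d - c) * e * 1) (by ring) (by ring) (by ring) (by ring) (by positivity)
      (by positivity) hA.scale

def chk3 (D : Dat) (o : Bool) (kind : ℕ) (e : ℤ) : Tree → ℤ → ℤ → ℤ → ℤ → Bool
  | .leaf l, a, b, c, d => ilt a b && (ilt c d && bxo D o kind e l a b c d)
  | .sx m t u, a, b, c, d => chk3 D o kind e t a m c d && chk3 D o kind e u m b c d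
  | .sy m t u, a, b, c, d => chk3 D o kind e t a b c m && chk3 D o kind e u a b m d

lemma chk3_sound {D : Dat} (hs : D.shape = true) {o : Bool} {kind : ℕ} {e : ℤ} (he : 0 < e)
    (t : Tree) (a b c d : ℤ) (h : chk3 D o kind e t a b c d = true) {p v x y : ℝ}
    (hA : At3 o kind p v x y)
    (h1 : (a : ℝ) ≤ e * p) (h2 : e * p ≤ (b : ℝ)) (h3 : (c : ℝ) ≤ e * v)
    (h4 : e * v ≤ (d : ℝ)) : Cop D x y := by
  induction t generalizing a b c d with
  | leaf l =>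
    simp only [chk3, Bool.and_eq_true, ilt, decide_eq_true_eq] at h
    exact cop_at hs he h.1 h.2.1 h.2.2 hA h1 h2 h3 h4
  | sx m t u iht ihu =>
    simp only [chk3, Bool.and_eq_true] at h
    rcases le_total (e * p) (m : ℝ) with h5 | h5
    · exact iht a m c d h.1 h1 h5 h3 h4
    · exact ihu m b c d h.2 h5 h2 h3 h4
  | sy m t u iht ihu =>
    simp only [chk3, Bool.and_eq_true] at h
    rcases le_total (e * v) (m : ℝ) with h5 | h5
    · exact iht a b c m h.1 h1 h2 h3 h5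
    · exact ihu a b m d h.2 h1 h2 h5 h4

/-- trees with a common denominator: four cones at the origin, four at infinity -/
structure Cov3 where
  e : ℤ
  i1 : Tree
  i2 : Tree
  i3 : Tree
  i4 : Tree
  o1 : Tree
  o2 : Tree
  o3 : Tree
  o4 : Tree

def Cov3.ok (T : Cov3) (D : Dat) : Bool :=
  D.shape && ilt 0 T.e &&
  chk3 D false 1 T.e T.i1 0 T.e (Int.neg T.e) T.e &&
  chk3 D false 2 T.e T.i2 0 T.e (Int.neg T.e) T.e &&
  chk3 D false 3 T.e T.i3 0 T.e (Int.neg T.e) T.e &&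
  chk3 D false 4 T.e T.i4 0 T.e (Int.neg T.e) T.e &&
  chk3 D true 1 T.e T.o1 0 T.e (Int.neg T.e) T.e &&
  chk3 D true 2 T.e T.o2 0 T.e (Int.neg T.e) T.e &&
  chk3 D true 3 T.e T.o3 0 T.e (Int.neg T.e) T.e &&
  chk3 D true 4 T.e T.o4 0 T.e (Int.neg T.e) T.e

/-- a cone `|v| ≤ w`, `w ≥ 0` is covered by an inner and an outer tree -/
lemma cone3 {D : Dat} (hs : D.shape = true) {kind : ℕ} {e : ℤ} (he : 0 < e) (t u : Tree)
    (ht : chk3 D false kind e t 0 e (Int.neg e) e = true)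
    (hu : chk3 D true kind e u 0 e (Int.neg e) e = true) {w v x y : ℝ} (hw : 0 ≤ w)
    (hv : |v| ≤ w) (hi : ∀ r : ℝ, v = w * r → Rel kind w 1 r 1 x y) : Cop D x y := by
  have he' : (0 : ℝ) < e := by exact_mod_cast he
  have hne : ((Int.neg e : ℤ) : ℝ) = -e := by
    show (((-e : ℤ)) : ℝ) = _
    push_cast; ring
  obtain ⟨r, hr, hr1⟩ : ∃ r : ℝ, v = w * r ∧ |r| ≤ 1 := by
    rcases eq_or_lt_of_le hw with h0 | h0
    · refine ⟨0, ?_, by simp⟩
      rw [← h0] at hv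
      have := abs_nonneg v
      have h2 : |v| = 0 := le_antisymm hv this
      rw [abs_eq_zero] at h2
      rw [h2]; ring
    · refine ⟨v / w, by field_simp, ?_⟩
      rw [abs_div, abs_of_pos h0, div_le_one h0]
      exact hv
  obtain ⟨r1, r2⟩ := abs_le.1 hr1
  have h3 : (((Int.neg e : ℤ)) : ℝ) ≤ e * r := by rw [hne]; nlinarith
  have h4 : e * r ≤ (e : ℝ) := by nlinarith
  rcases le_total w 1 with h1 | h1
  · refine chk3_sound hs he t _ _ _ _ ht (p := w) (v := r) (hi r hr) ?_ ?_ h3 h4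
    · push_cast; positivity
    · nlinarith
  · have h0 : 0 < w := by linarith
    have hR := (hi r hr).scale (l := 1 / w) (m := 1)
    have e1 : 1 / w * w = 1 := by field_simp
    rw [e1, mul_one, one_mul, mul_one] at hR
    have hb : 1 / w ≤ 1 := by rw [div_le_one h0]; exact h1
    refine chk3_sound hs he u _ _ _ _ hu (p := 1 / w) (v := r) ⟨by positivity, hR⟩ ?_ ?_ h3 h4
    · push_cast; positivity
    · nlinarith

lemma Cov3.sound {T : Cov3} {D : Dat} (h : T.ok D = true) (x y : ℝ) : Cop D x y := by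
  simp only [Cov3.ok, Bool.and_eq_true] at h
  obtain ⟨⟨⟨⟨⟨⟨⟨⟨⟨hs, he⟩, i1⟩, i2⟩, i3⟩, i4⟩, o1⟩, o2⟩, o3⟩, o4⟩ := h
  simp only [ilt, decide_eq_true_eq] at he
  rcases le_total |x| |y| with hxy | hxy
  · rcases abs_cases y with ⟨hy, hy0⟩ | ⟨hy, hy0⟩
    · rw [hy] at hxy
      refine cone3 hs he T.i2 T.o2 i2 o2 (w := y) (v := x) hy0 hxy (fun r hr => ⟨?_, ?_⟩)
      · rw [hr]; ring
      · ring
    · rw [hy] at hxy
      refine cone3 hs he T.i4 T.o4 i4 o4 (w := -y) (v := x) (by linarith) hxy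
        (fun r hr => ⟨?_, ?_⟩)
      · rw [hr]; ring
      · ring
  · rcases abs_cases x with ⟨hx, hx0⟩ | ⟨hx, hx0⟩
    · rw [hx] at hxy
      refine cone3 hs he T.i1 T.o1 i1 o1 (w := x) (v := y) hx0 hxy (fun r hr => ⟨?_, ?_⟩)
      · ring
      · rw [hr]; ring
    · rw [hx] at hxy
      refine cone3 hs he T.i3 T.o3 i3 o3 (w := -x) (v := y) (by linarith) hxy
        (fun r hr => ⟨?_, ?_⟩)
      · ring
      · rw [hr]; ring

/-- the rectangle `[a/e, b/e] × [c/e, d/e]` -/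
lemma rect3 {D : Dat} (hs : D.shape = true) {e : ℤ} (he : 0 < e) (t : Tree) (a b c d : ℤ)
    (h : chk3 D false 0 e t a b c d = true) {x y : ℝ} (h1 : (a : ℝ) ≤ e * x)
    (h2 : e * x ≤ (b : ℝ)) (h3 : (c : ℝ) ≤ e * y) (h4 : e * y ≤ (d : ℝ)) : Cop D x y :=
  chk3_sound hs he t a b c d h (p := x) (v := y) ⟨by ring, by ring⟩ h1 h2 h3 h4

end Pool.EK71
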