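import Mathlib

/-!
Algebra of one condition of the certificate at a point: completing the square in `q`.
Coordinates `f = X - 1 = (f1, f2)`.
-/

set_option autoImplicit false

namespace Pool.Agent.Helper71.EK3

/-- values at one point: `D = 1 + a|X|²`, `E = D^k`, `lam`, `dd`, the numerators of the
Laplacian of `U`, of `U, V, Z, W, T` and of their gradients -/
structure Pq where
  f1 : ℝ
  f2 : ℝ
  D : ℝ
  E : ℝ
  lam : ℝ
  dd : ℝ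
  n4 : ℝ
  hu : ℝ
  hv : ℝ
  hvx : ℝ
  hvy : ℝ
  hz : ℝ
  hzx : ℝ
  hzy : ℝ
  hwx : ℝ
  hwy : ℝ
  htx : ℝ
  hty : ℝ

namespace Pq

variable (P : Pq)

noncomputable def x : ℝ := 1 + P.f1
noncomputable def F : ℝ := P.f1 ^ 2 + P.f2 ^ 2

noncomputable def A1 : ℝ := P.hwx + P.hvy
noncomputable def A2 : ℝ := P.hwy - P.hvx
noncomputable def B1 : ℝ := P.htx + P.hzy
noncomputable def B2 : ℝ := P.hty - P.hzx

/-- the common part of the constant terms -/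
noncomputable def C0 : ℝ := (P.lam * P.F + P.dd * (P.f1 ^ 2 - P.f2 ^ 2)) * P.E

variable (r nu mu : ℝ)

noncomputable def N : ℝ := (P.x ^ 2 + P.f2 ^ 2) * P.n4 + 4 * ((r - mu * P.E) * P.D ^ 2)
noncomputable def a1 : ℝ := P.x * P.A1 + P.f2 * P.A2
  + P.D * (4 * r * (4 * P.f1 + 1) - 16 * mu * P.E * P.f1)
noncomputable def a2 : ℝ := P.x * P.A2 - P.f2 * P.A1
  + P.D * (16 * r * P.f2 - 16 * mu * P.E * P.f2)
noncomputable def b1 : ℝ := 2 * (P.x * P.B1 + P.f2 * P.B2)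
noncomputable def b2 : ℝ := 2 * (P.x * P.B2 - P.f2 * P.B1) + 4 * r * P.D
noncomputable def Ca : ℝ := P.C0 + nu + 2 * (P.hu - P.hz) + r * (16 * P.F + 8 * P.f1)
  - 16 * mu * P.F * P.E
noncomputable def Cg : ℝ := P.C0 + nu - 2 * (P.hu - P.hz)
noncomputable def Cb : ℝ := P.hv + 4 * r * P.f2

noncomputable def p11 : ℝ := 4 * P.N r mu * P.Ca r nu mu - (P.a1 r mu ^ 2 + P.a2 r mu ^ 2)
noncomputable def p12 : ℝ := 4 * P.N r mu * P.Cb r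
  - (P.a1 r mu * P.b1 + P.a2 r mu * P.b2 r)
noncomputable def p22 : ℝ := 4 * P.N r mu * P.Cg nu - (P.b1 ^ 2 + P.b2 r ^ 2)

/-- the right side of the certificate -/
noncomputable def EE (y1 y2 s c : ℝ) : ℝ :=
  P.lam * P.F + P.dd * (P.f1 ^ 2 - P.f2 ^ 2)
    + (s ^ 2 * (P.n4 / (P.E * P.D ^ 2)) * (y1 ^ 2 + y2 ^ 2)
      - 2 * (c ^ 2 - s ^ 2) * (P.hu / P.E))
    + (s ^ 2 * (P.hwx / (P.E * P.D) * y1 + P.hwy / (P.E * P.D) * y2)
      + 2 * s * c * (P.htx / (P.E * P.D) * y1 + P.hty / (P.E * P.D) * y2))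
    + (s ^ 2 * (-(P.hvx / (P.E * P.D)) * y2 + P.hvy / (P.E * P.D) * y1)
      + 2 * s * c * (P.hv / P.E))
    + (2 * s * c * (-(P.hzx / (P.E * P.D)) * y2 + P.hzy / (P.E * P.D) * y1)
      + 2 * (c ^ 2 - s ^ 2) * (P.hz / P.E))

/-- `|v|²`, `v = 2f + q` -/
noncomputable def vv (q1 q2 : ℝ) : ℝ := (2 * P.f1 + q1) ^ 2 + (2 * P.f2 + q2) ^ 2
/-- `M = 4 s² |v|²` -/
noncomputable def MM (q1 q2 s : ℝ) : ℝ := 4 * s ^ 2 * P.vv q1 q2
/-- `δ = 4 s² (|v|² + Re v) + 4 s c Im v` -/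
noncomputable def dl (q1 q2 s c : ℝ) : ℝ :=
  4 * s ^ 2 * (P.vv q1 q2 + (2 * P.f1 + q1)) + 4 * s * c * (2 * P.f2 + q2)

lemma cond (hD : 0 < P.D) (hE : 0 < P.E) (hN : 0 < P.N r mu)
    (hq : ∀ s c : ℝ, 0 ≤ s → 0 ≤ c →
      0 ≤ P.p11 r nu mu * s ^ 2 + 2 * P.p12 r mu * (s * c) + P.p22 r nu mu * c ^ 2)
    {s c : ℝ} (hs : 0 ≤ s) (hc : 0 ≤ c) (h : s ^ 2 + c ^ 2 = 1) (q1 q2 : ℝ) :
    0 ≤ P.EE (P.x * q1 - P.f2 * q2) (P.x * q2 + P.f2 * q1) s c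
      + r / P.E * P.dl q1 q2 s c - mu * P.MM q1 q2 s + nu / P.E := by
  have h0 := hq s c hs hc
  have key : 4 * P.N r mu * (P.E * P.D ^ 2) *
      (P.EE (P.x * q1 - P.f2 * q2) (P.x * q2 + P.f2 * q1) s c
      + r / P.E * P.dl q1 q2 s c - mu * P.MM q1 q2 s + nu / P.E) =
      (2 * P.N r mu * (s * q1) + P.D * (s * P.a1 r mu + c * P.b1)) ^ 2
      + (2 * P.N r mu * (s * q2) + P.D * (s * P.a2 r mu + c * P.b2 r)) ^ 2
      + P.D ^ 2 * (P.p11 r nu mu * s ^ 2 + 2 * P.p12 r mu * (s * c) + P.p22 r nu mu * c ^ 2)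
      + 4 * P.N r mu * P.D ^ 2 * (P.C0 + nu) * (1 - s ^ 2 - c ^ 2) := by
    have e1 : (P.E * P.D ^ 2) *
        (P.EE (P.x * q1 - P.f2 * q2) (P.x * q2 + P.f2 * q1) s c
        + r / P.E * P.dl q1 q2 s c - mu * P.MM q1 q2 s + nu / P.E) =
        P.N r mu * ((s * q1) ^ 2 + (s * q2) ^ 2)
        + P.D * ((s * q1) * (s * P.a1 r mu + c * P.b1) + (s * q2) * (s * P.a2 r mu + c * P.b2 r))
        + P.D ^ 2 * (P.Ca r nu mu * s ^ 2 + 2 * P.Cb r * (s * c) + P.Cg nu * c ^ 2)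
        + P.D ^ 2 * (P.C0 + nu) * (1 - s ^ 2 - c ^ 2) := by
      unfold EE MM dl vv N a1 a2 b1 b2 Ca Cb Cg A1 A2 B1 B2 C0 F x
      have hD' := hD.ne'
      have hE' := hE.ne'
      field_simp
      ring
    unfold p11 p12 p22
    linear_combination 4 * P.N r mu * e1
  have hc0 : (1 - s ^ 2 - c ^ 2 : ℝ) = 0 := by linarith
  rw [hc0, mul_zero, add_zero] at key
  have hpos : 0 < 4 * P.N r mu * (P.E * P.D ^ 2) := by positivity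
  refine nonneg_of_mul_nonneg_right ?_ hpos
  rw [key]
  positivity

end Pq

/-- the inside and the outside of the field `G(m) = g(|m|²) m`, `g = 2/(1+n)` for `n ≥ 1`,
`g = (3-n)/2` for `n ≤ 1` -/
noncomputable def gg (n : ℝ) : ℝ := if n ≤ 1 then (3 - n) / 2 else 2 / (1 + n)

/-- outside: `T = g M - (1-g)(g n - 1)` -/
lemma out_le {n M E k σ : ℝ} (hn : 1 ≤ n) (h0 : σ ≤ E)
    (h1 : M + k ^ 2 - (2 * k - k ^ 2 + σ) / 2 * (n - 1) ≤ E) :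
    2 / (1 + n) * M - (1 - 2 / (1 + n)) * (2 / (1 + n) * n - 1) ≤ E := by
  have hn' : 0 < 1 + n := by linarith
  -- weights g = 2/(1+n) on h1 and 1-g on h0
  have key : (1 + n) ^ 2 * (E - (2 / (1 + n) * M - (1 - 2 / (1 + n)) * (2 / (1 + n) * n - 1))) =
      (1 + n) * (2 * (E - (M + k ^ 2 - (2 * k - k ^ 2 + σ) / 2 * (n - 1))) + (n - 1) * (E - σ))
      + ((1 - k) * (n - 1) - 2 * k) ^ 2 := by
    field_simp
    ring
  have hp : 0 < (1 + n) ^ 2 := by positivity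
  have : 0 ≤ (1 + n) ^ 2 *
      (E - (2 / (1 + n) * M - (1 - 2 / (1 + n)) * (2 / (1 + n) * n - 1))) := by
    rw [key]
    have a1 : 0 ≤ E - (M + k ^ 2 - (2 * k - k ^ 2 + σ) / 2 * (n - 1)) := by linarith
    have a2 : 0 ≤ E - σ := by linarith
    have a3 : 0 ≤ n - 1 := by linarith
    positivity
  have := nonneg_of_mul_nonneg_right this hp
  linarith

/-- inside -/
lemma in_le {n M E k σ c2 ρ2 : ℝ} (hn0 : 0 ≤ n) (hn : n ≤ 1)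
    (h1 : M + k ^ 2 - (2 * k - k ^ 2 + σ) / 2 * (n - 1) ≤ E)
    (h2 : 3 / 2 * M - c2 - ρ2 * (n - 1) ≤ E)
    (hA : 0 ≤ (σ - 3 * k ^ 2) / 2 - c2)
    (hB : 0 ≤ (σ - 3 * k ^ 2) / 2 - c2 + (ρ2 - (2 * k - k ^ 2 + σ) / 2)) :
    (3 - n) / 2 * M - (1 - (3 - n) / 2) * ((3 - n) / 2 * n - 1) ≤ E := by
  obtain ⟨e, rfl⟩ : ∃ e, n = 1 - e := ⟨1 - n, by ring⟩
  have he0 : 0 ≤ e := by linarith
  have he1 : e ≤ 1 := by linarith
  have key : E - ((3 - (1 - e)) / 2 * M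
      - (1 - (3 - (1 - e)) / 2) * ((3 - (1 - e)) / 2 * (1 - e) - 1)) =
      (1 - e) * (E - (M + k ^ 2 - (2 * k - k ^ 2 + σ) / 2 * ((1 - e) - 1)))
      + e * (E - (3 / 2 * M - c2 - ρ2 * ((1 - e) - 1)))
      + (k + e / 2) ^ 2 + e ^ 3 / 4
      + e * ((1 - e) * ((σ - 3 * k ^ 2) / 2 - c2)
        + e * ((σ - 3 * k ^ 2) / 2 - c2 + (ρ2 - (2 * k - k ^ 2 + σ) / 2))) := by
    ring
  have a1 : 0 ≤ E - (M + k ^ 2 - (2 * k - k ^ 2 + σ) / 2 * ((1 - e) - 1)) := by linarith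
  have a2 : 0 ≤ E - (3 / 2 * M - c2 - ρ2 * ((1 - e) - 1)) := by linarith
  have a3 : 0 ≤ 1 - e := by linarith
  have : 0 ≤ E - ((3 - (1 - e)) / 2 * M
      - (1 - (3 - (1 - e)) / 2) * ((3 - (1 - e)) / 2 * (1 - e) - 1)) := by
    rw [key]; positivity
  linarith

end Pool.Agent.Helper71.EK3
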