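import Pool.Agent.Helper71.EKC.Fin
import Pool.Agent.Helper71.EK3.Bc
import Pool.Agent.Helper71.EK3.Gq

/-!
Certificates given by integer lists, centred at `X = 1`: the potentials, their derivatives,
and the polynomials of one condition.
-/

set_option autoImplicit false

open Complex

namespace Pool.Agent.Helper71.EK3

open Pool.EK71 Pool.Agent.Helper52.EK Pool.Agent.Helper2.EK Pool.Agent.Helper71.EK
open Pool.Agent.Helper71.EKC (Da Da_pos c1_Da c1_divA c1_unique d_mu d_sb d_sm dY_dX sb2 pw2 e_sb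
  e_pw cL e_c)

/-- certificate data; the potentials are `|X-1|² N/(K D^k)`, `D = 1 + a|X|²`, where `N` is a
polynomial in `(Re X - 1, Im X)` -/
structure C3 where
  a : ℕ
  k : ℕ
  K : ℕ
  lam : ℤ
  dd : ℤ
  U : BP
  V : BP
  Z : BP
  W : BP
  T : BP

/-! ### basic lists, variables `(f1, f2) = (Re X - 1, Im X)` -/

def xL : BP := [[1], [1]]
def uL : BP := [[], [1]]
def yL : BP := [[0, 1]]
def r2L : BP := [[1, 0, 1], [2], [1]]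
def FL : BP := [[0, 0, 1], [], [1]]
def G2L : BP := [[0, 0, -1], [], [1]]
def DL (a : ℕ) : BP := [[Int.add 1 (Int.ofNat a), 0, Int.ofNat a], [Int.mul 2 (Int.ofNat a)],
  [Int.ofNat a]]

section ev
variable (u y : ℝ)
lemma e_x : ev2 u y xL = 1 + u := by simp [ev2, ev1, xL]
lemma e_u : ev2 u y uL = u := by simp [ev2, ev1, uL]
lemma e_y : ev2 u y yL = y := by simp [ev2, ev1, yL]
lemma e_r2 : ev2 u y r2L = (1 + u) ^ 2 + y ^ 2 := by simp [ev2, ev1, r2L]; ring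
lemma e_F : ev2 u y FL = u ^ 2 + y ^ 2 := by simp [ev2, ev1, FL]; ring
lemma e_G2 : ev2 u y G2L = u ^ 2 - y ^ 2 := by simp [ev2, ev1, G2L]; ring
lemma iadd_cast (a b : ℤ) : ((Int.add a b : ℤ) : ℝ) = a + b := by
  show (((a + b : ℤ)) : ℝ) = _
  push_cast; ring
lemma ofNat_cast (a : ℕ) : ((Int.ofNat a : ℤ) : ℝ) = a := by simp
lemma e_D (a : ℕ) : ev2 u y (DL a) = Da a (1 + u) y := by
  simp only [ev2, ev1, DL, iadd_cast, imul_cast, ofNat_cast, Da]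
  push_cast; ring
end ev

/-! ### formal derivatives, shifted -/

lemma c1_sh (P : BP) : C1f (fun X : ℂ => ev2 (X.re - 1) X.im P)
    (fun X => ev2 (X.re - 1) X.im (dX P)) (fun X => ev2 (X.re - 1) X.im (dY P)) := by
  induction P with
  | nil =>
    refine c1_congr (c1_const 0) (fun X => ?_) (fun X => ?_) (fun X => ?_)
    · simp [ev2]
    · simp [dX, ev2]
    · simp [dY, ev2]
  | cons r P ih =>
    refine c1_congr (c1_add (c1_ev1 r) (c1_mul (c1_sub c1_re (c1_const 1)) ih)) (fun X => ?_)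
      (fun X => ?_) (fun X => ?_)
    · simp only [ev2]
    · rw [dX_ev]; ring
    · simp only [dY, ev2]; ring

namespace C3

variable (C : C3)

/-- numerators of the derivatives of `P / D^j` -/
def qx (j : ℕ) (P : BP) : BP :=
  sb2 (mu2 (DL C.a) (dX P)) (sm2 (Int.mul 2 (Int.mul (Int.ofNat j) (Int.ofNat C.a))) (mu2 xL P))
def qy (j : ℕ) (P : BP) : BP :=
  sb2 (mu2 (DL C.a) (dY P)) (sm2 (Int.mul 2 (Int.mul (Int.ofNat j) (Int.ofNat C.a))) (mu2 yL P))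

def hL (N : BP) : BP := mu2 FL N
def gxL (N : BP) : BP := C.qx C.k (hL N)
def gyL (N : BP) : BP := C.qy C.k (hL N)
def n4L : BP := ad2 (C.qx (C.k + 1) (C.gxL C.U)) (C.qy (C.k + 1) (C.gyL C.U))

lemma e_qx (j : ℕ) (P : BP) (u y : ℝ) : ev2 u y (C.qx j P) =
    ev2 u y (dX P) * Da C.a (1 + u) y - 2 * j * C.a * (1 + u) * ev2 u y P := by
  rw [qx, e_sb, ev2_mu, ev2_sm, ev2_mu, e_D, e_x, imul_cast, imul_cast, ofNat_cast, ofNat_cast]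
  push_cast; ring

lemma e_qy (j : ℕ) (P : BP) (u y : ℝ) : ev2 u y (C.qy j P) =
    ev2 u y (dY P) * Da C.a (1 + u) y - 2 * j * C.a * y * ev2 u y P := by
  rw [qy, e_sb, ev2_mu, ev2_sm, ev2_mu, e_D, e_y, imul_cast, imul_cast, ofNat_cast, ofNat_cast]
  push_cast; ring

theorem c1_q (j : ℕ) (P : BP) :
    C1f (fun X : ℂ => ev2 (X.re - 1) X.im P / C.K / Da C.a X.re X.im ^ j)
      (fun X => ev2 (X.re - 1) X.im (C.qx j P) / C.K / Da C.a X.re X.im ^ (j + 1))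
      (fun X => ev2 (X.re - 1) X.im (C.qy j P) / C.K / Da C.a X.re X.im ^ (j + 1)) := by
  have h1 : C1f (fun X : ℂ => ev2 (X.re - 1) X.im P / C.K)
      (fun X => ev2 (X.re - 1) X.im (dX P) / C.K)
      (fun X => ev2 (X.re - 1) X.im (dY P) / C.K) := by
    refine c1_congr (c1_mul (c1_const ((C.K : ℝ)⁻¹)) (c1_sh P)) ?_ ?_ ?_ <;> intro X <;>
      simp [div_eq_mul_inv] <;> ring
  have ex : ∀ X : ℂ, 1 + (X.re - 1) = X.re := fun X => by ring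
  refine c1_congr (c1_divA C.a h1 j) (fun X => rfl) (fun X => ?_) (fun X => ?_)
  · rw [e_qx, ex, pow_succ]; ring
  · rw [e_qy, ex, pow_succ]; ring

/-! ### the potentials -/

noncomputable def pot (N : BP) (X : ℂ) : ℝ :=
  ev2 (X.re - 1) X.im (hL N) / C.K / Da C.a X.re X.im ^ C.k
noncomputable def potx (N : BP) (X : ℂ) : ℝ :=
  ev2 (X.re - 1) X.im (C.gxL N) / C.K / Da C.a X.re X.im ^ (C.k + 1)
noncomputable def poty (N : BP) (X : ℂ) : ℝ :=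
  ev2 (X.re - 1) X.im (C.gyL N) / C.K / Da C.a X.re X.im ^ (C.k + 1)
noncomputable def lap (X : ℂ) : ℝ :=
  ev2 (X.re - 1) X.im C.n4L / C.K / Da C.a X.re X.im ^ (C.k + 2)

theorem c1_pot (N : BP) : C1f (C.pot N) (C.potx N) (C.poty N) := C.c1_q C.k (hL N)

lemma e_dD (u y : ℝ) : ev2 u y (dX (DL C.a)) = 2 * C.a * (1 + u) ∧
    ev2 u y (dY (DL C.a)) = 2 * C.a * y := by
  constructor
  · simp only [DL, dX, dx1, sm1, ev2, ev1, imul_cast, ofNat_cast]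
    push_cast; ring
  · simp only [DL, dY, dyr, dy1, ev2, ev1, imul_cast, ofNat_cast]
    push_cast; ring

lemma e_dxy (u y : ℝ) : ev2 u y (dX xL) = 1 ∧ ev2 u y (dY xL) = 0 ∧ ev2 u y (dX yL) = 0 ∧
    ev2 u y (dY yL) = 1 := by
  refine ⟨?_, ?_, ?_, ?_⟩ <;> simp [xL, yL, dX, dY, dx1, dyr, dy1, sm1, ev2, ev1]

lemma q_comm (i j : ℕ) (P : BP) (u y : ℝ) :
    ev2 u y (C.qy j (C.qx i P)) - ev2 u y (C.qx j (C.qy i P)) =
      (2 * i * C.a - 2 * j * C.a + 2 * C.a)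
        * (y * ev2 u y (dX P) - (1 + u) * ev2 u y (dY P)) * Da C.a (1 + u) y := by
  rw [e_qy, e_qx C i P, e_qx C j (C.qy i P), e_qy C i P]
  have h1 : ev2 u y (dY (C.qx i P)) = (2 * C.a * y) * ev2 u y (dX P)
      + Da C.a (1 + u) y * ev2 u y (dX (dY P)) - 2 * i * C.a * (1 + u) * ev2 u y (dY P) := by
    rw [qx, (d_sb u y _ _).2, (d_mu u y _ _).2, (d_sm u y _ _).2, (d_mu u y _ _).2, (C.e_dD u y).2,
      (e_dxy u y).2.1, e_D, e_x, dY_dX, imul_cast, imul_cast, ofNat_cast, ofNat_cast]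
    push_cast; ring
  have h2 : ev2 u y (dX (C.qy i P)) = (2 * C.a * (1 + u)) * ev2 u y (dY P)
      + Da C.a (1 + u) y * ev2 u y (dX (dY P)) - 2 * i * C.a * y * ev2 u y (dX P) := by
    rw [qy, (d_sb u y _ _).1, (d_mu u y _ _).1, (d_sm u y _ _).1, (d_mu u y _ _).1, (C.e_dD u y).1,
      (e_dxy u y).2.2.1, e_D, e_y, imul_cast, imul_cast, ofNat_cast, ofNat_cast]
    push_cast; ring
  rw [h1, h2]
  ring

theorem c2_U : C2f (C.pot C.U) (C.potx C.U) (C.poty C.U) C.lap := by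
  refine ⟨C.c1_q C.k (hL C.U), _, _, _, C.c1_q (C.k + 1) (C.gxL C.U),
    c1_congr (C.c1_q (C.k + 1) (C.gyL C.U)) (fun _ => rfl)
      (W' := C.poty C.U) (Wx' := fun X => ev2 (X.re - 1) X.im (C.qy (C.k + 1) (C.gxL C.U)) / C.K
        / Da C.a X.re X.im ^ (C.k + 1 + 1)) (fun X => ?_) (fun _ => rfl), fun X => ?_⟩
  · show ev2 (X.re - 1) X.im (C.qy (C.k + 1) (C.gxL C.U)) / C.K / Da C.a X.re X.im ^ (C.k + 1 + 1)
      = ev2 (X.re - 1) X.im (C.qx (C.k + 1) (C.gyL C.U)) / C.K / Da C.a X.re X.im ^ (C.k + 1 + 1)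
    have h := C.q_comm C.k (C.k + 1) (hL C.U) (X.re - 1) X.im
    have h0 : (2 * (C.k : ℝ) * C.a - 2 * ((C.k + 1 : ℕ) : ℝ) * C.a + 2 * C.a) = 0 := by
      push_cast; ring
    rw [h0, zero_mul, zero_mul] at h
    rw [gxL, gyL, sub_eq_zero.1 h]
  · rw [lap, n4L, ev2_ad]; ring

/-- values at a point -/
noncomputable def pt (u y : ℝ) : Pq where
  f1 := u
  f2 := y
  D := Da C.a (1 + u) y
  E := Da C.a (1 + u) y ^ C.k
  lam := C.lam / C.K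
  dd := C.dd / C.K
  n4 := ev2 u y C.n4L / C.K
  hu := ev2 u y (hL C.U) / C.K
  hv := ev2 u y (hL C.V) / C.K
  hvx := ev2 u y (C.gxL C.V) / C.K
  hvy := ev2 u y (C.gyL C.V) / C.K
  hz := ev2 u y (hL C.Z) / C.K
  hzx := ev2 u y (C.gxL C.Z) / C.K
  hzy := ev2 u y (C.gyL C.Z) / C.K
  hwx := ev2 u y (C.gxL C.W) / C.K
  hwy := ev2 u y (C.gyL C.W) / C.K
  htx := ev2 u y (C.gxL C.T) / C.K
  hty := ev2 u y (C.gyL C.T) / C.K

/-! ### the polynomials of one condition; `μ = m/2` -/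

def D1 : BP := DL C.a
def EL : BP := pw2 (DL C.a) C.k
def KZ : ℤ := Int.ofNat C.K
def A1L : BP := ad2 (C.gxL C.W) (C.gyL C.V)
def A2L : BP := sb2 (C.gyL C.W) (C.gxL C.V)
def B1L : BP := ad2 (C.gxL C.T) (C.gyL C.Z)
def B2L : BP := sb2 (C.gyL C.T) (C.gxL C.Z)
def C0L : BP := mu2 (ad2 (sm2 C.lam FL) (sm2 C.dd G2L)) C.EL
def UZL : BP := sb2 (hL C.U) (hL C.Z)
/-- `m K E` -/
def mE (m : ℤ) : BP := sm2 (Int.mul m C.KZ) C.EL

section cnd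
variable (m : ℤ) (R Nu : BP)
def NL : BP :=
  ad2 (mu2 r2L C.n4L)
    (sm2 2 (mu2 (mu2 C.D1 C.D1) (sb2 (sm2 2 R) (C.mE m))))
def a1L : BP :=
  ad2 (ad2 (mu2 xL C.A1L) (mu2 yL C.A2L))
    (sm2 4 (mu2 C.D1 (ad2 R (mu2 uL (sb2 (sm2 4 R) (sm2 2 (C.mE m)))))))
def a2L : BP :=
  ad2 (sb2 (mu2 xL C.A2L) (mu2 yL C.A1L))
    (sm2 4 (mu2 C.D1 (mu2 yL (sb2 (sm2 4 R) (sm2 2 (C.mE m))))))
def b1L : BP := sm2 2 (ad2 (mu2 xL C.B1L) (mu2 yL C.B2L))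
def b2L : BP := ad2 (sm2 2 (sb2 (mu2 xL C.B2L) (mu2 yL C.B1L))) (sm2 4 (mu2 R C.D1))
def CaL : BP :=
  ad2 (ad2 C.C0L (ad2 Nu (sm2 2 C.UZL)))
    (sm2 8 (sb2 (mu2 R (ad2 (sm2 2 FL) uL)) (mu2 FL (C.mE m))))
def CgL : BP := sb2 (ad2 C.C0L Nu) (sm2 2 C.UZL)
def CbL : BP := ad2 (hL C.V) (sm2 4 (mu2 R yL))
def p11L : BP :=
  sb2 (sm2 4 (mu2 (C.NL m R) (C.CaL m R Nu)))
    (ad2 (mu2 (C.a1L m R) (C.a1L m R)) (mu2 (C.a2L m R) (C.a2L m R)))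
def p12L : BP :=
  sb2 (sm2 4 (mu2 (C.NL m R) (C.CbL R)))
    (ad2 (mu2 (C.a1L m R) C.b1L) (mu2 (C.a2L m R) (C.b2L R)))
def p22L : BP :=
  sb2 (sm2 4 (mu2 (C.NL m R) (C.CgL Nu)))
    (ad2 (mu2 C.b1L C.b1L) (mu2 (C.b2L R) (C.b2L R)))
def qL : BP := sb2 (C.NL m R) (cL 1)
end cnd

/-! ### values -/

section val
variable (u y : ℝ)

lemma v_D1 : ev2 u y C.D1 = (C.pt u y).D := by rw [D1, e_D]; rfl
lemma v_E : ev2 u y C.EL = (C.pt u y).E := by rw [EL, e_pw, e_D]; rfl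

variable {C} (hK : 0 < C.K)
include hK

lemma v_n4 : ev2 u y C.n4L = C.K * (C.pt u y).n4 := by
  have hK' : (C.K : ℝ) ≠ 0 := by exact_mod_cast hK.ne'
  show _ = (C.K : ℝ) * (ev2 u y C.n4L / C.K); field_simp
lemma v_A1 : ev2 u y C.A1L = C.K * (C.pt u y).A1 := by
  have hK' : (C.K : ℝ) ≠ 0 := by exact_mod_cast hK.ne'
  rw [A1L, ev2_ad]
  show _ = (C.K : ℝ) * (ev2 u y (C.gxL C.W) / C.K + ev2 u y (C.gyL C.V) / C.K); field_simp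
lemma v_A2 : ev2 u y C.A2L = C.K * (C.pt u y).A2 := by
  have hK' : (C.K : ℝ) ≠ 0 := by exact_mod_cast hK.ne'
  rw [A2L, e_sb]
  show _ = (C.K : ℝ) * (ev2 u y (C.gyL C.W) / C.K - ev2 u y (C.gxL C.V) / C.K); field_simp
lemma v_B1 : ev2 u y C.B1L = C.K * (C.pt u y).B1 := by
  have hK' : (C.K : ℝ) ≠ 0 := by exact_mod_cast hK.ne'
  rw [B1L, ev2_ad]
  show _ = (C.K : ℝ) * (ev2 u y (C.gxL C.T) / C.K + ev2 u y (C.gyL C.Z) / C.K); field_simp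
lemma v_B2 : ev2 u y C.B2L = C.K * (C.pt u y).B2 := by
  have hK' : (C.K : ℝ) ≠ 0 := by exact_mod_cast hK.ne'
  rw [B2L, e_sb]
  show _ = (C.K : ℝ) * (ev2 u y (C.gyL C.T) / C.K - ev2 u y (C.gxL C.Z) / C.K); field_simp
lemma v_UZ : ev2 u y C.UZL = C.K * ((C.pt u y).hu - (C.pt u y).hz) := by
  have hK' : (C.K : ℝ) ≠ 0 := by exact_mod_cast hK.ne'
  rw [UZL, e_sb]
  show _ = (C.K : ℝ) * (ev2 u y (hL C.U) / C.K - ev2 u y (hL C.Z) / C.K); field_simp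
lemma v_V : ev2 u y (hL C.V) = C.K * (C.pt u y).hv := by
  have hK' : (C.K : ℝ) ≠ 0 := by exact_mod_cast hK.ne'
  show _ = (C.K : ℝ) * (ev2 u y (hL C.V) / C.K); field_simp
lemma v_C0 : ev2 u y C.C0L = C.K * (C.pt u y).C0 := by
  have hK' : (C.K : ℝ) ≠ 0 := by exact_mod_cast hK.ne'
  rw [C0L, ev2_mu, ev2_ad, ev2_sm, ev2_sm, e_F, e_G2, v_E]
  show _ = (C.K : ℝ) * ((C.lam / C.K * (u ^ 2 + y ^ 2) + C.dd / C.K * (u ^ 2 - y ^ 2))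
    * (C.pt u y).E)
  field_simp
lemma v_mE (m : ℤ) : ev2 u y (C.mE m) = C.K * (m * (C.pt u y).E) := by
  rw [mE, ev2_sm, v_E, imul_cast, KZ, ofNat_cast]; ring

variable (m : ℤ) (R Nu : BP) {r nu : ℝ} (hr : ev2 u y R = C.K * r) (hnu : ev2 u y Nu = C.K * nu)
include hr

lemma v_N : ev2 u y (C.NL m R) = C.K * (C.pt u y).N r (m / 2) := by
  rw [NL, ev2_ad, ev2_mu, ev2_sm, ev2_mu, ev2_mu, e_sb, ev2_sm, e_r2, v_n4 u y hK, v_D1,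
    v_mE u y hK, hr, Pq.N, Pq.x]
  show _ = (C.K : ℝ) * (((1 + u) ^ 2 + y ^ 2) * (C.pt u y).n4
    + 4 * ((r - m / 2 * (C.pt u y).E) * (C.pt u y).D ^ 2))
  push_cast; ring
lemma v_a1 : ev2 u y (C.a1L m R) = C.K * (C.pt u y).a1 r (m / 2) := by
  rw [a1L, ev2_ad, ev2_ad, ev2_mu, ev2_mu, ev2_sm, ev2_mu, ev2_ad, ev2_mu, e_sb, ev2_sm, ev2_sm,
    e_x, e_y, e_u, v_A1 u y hK, v_A2 u y hK, v_D1, v_mE u y hK, hr, Pq.a1, Pq.x]
  show _ = (C.K : ℝ) * ((1 + u) * (C.pt u y).A1 + y * (C.pt u y).A2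
    + (C.pt u y).D * (4 * r * (4 * u + 1) - 16 * (m / 2) * (C.pt u y).E * u))
  push_cast; ring
lemma v_a2 : ev2 u y (C.a2L m R) = C.K * (C.pt u y).a2 r (m / 2) := by
  rw [a2L, ev2_ad, e_sb, ev2_mu, ev2_mu, ev2_sm, ev2_mu, ev2_mu, e_sb, ev2_sm, ev2_sm,
    e_x, e_y, v_A1 u y hK, v_A2 u y hK, v_D1, v_mE u y hK, hr, Pq.a2, Pq.x]
  show _ = (C.K : ℝ) * ((1 + u) * (C.pt u y).A2 - y * (C.pt u y).A1
    + (C.pt u y).D * (16 * r * y - 16 * (m / 2) * (C.pt u y).E * y))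
  push_cast; ring
omit hr in
lemma v_b1 : ev2 u y C.b1L = C.K * (C.pt u y).b1 := by
  rw [b1L, ev2_sm, ev2_ad, ev2_mu, ev2_mu, e_x, e_y, v_B1 u y hK, v_B2 u y hK, Pq.b1, Pq.x]
  show _ = (C.K : ℝ) * (2 * ((1 + u) * (C.pt u y).B1 + y * (C.pt u y).B2))
  push_cast; ring
lemma v_b2 : ev2 u y (C.b2L R) = C.K * (C.pt u y).b2 r := by
  rw [b2L, ev2_ad, ev2_sm, e_sb, ev2_mu, ev2_mu, ev2_sm, ev2_mu, e_x, e_y, v_B1 u y hK,
    v_B2 u y hK, v_D1, hr, Pq.b2, Pq.x]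
  show _ = (C.K : ℝ) * (2 * ((1 + u) * (C.pt u y).B2 - y * (C.pt u y).B1)
    + 4 * r * (C.pt u y).D)
  push_cast; ring
lemma v_Cb : ev2 u y (C.CbL R) = C.K * (C.pt u y).Cb r := by
  rw [CbL, ev2_ad, ev2_sm, ev2_mu, e_y, v_V u y hK, hr, Pq.Cb]
  show _ = (C.K : ℝ) * ((C.pt u y).hv + 4 * r * y)
  push_cast; ring
include hnu
lemma v_Ca : ev2 u y (C.CaL m R Nu) = C.K * (C.pt u y).Ca r nu (m / 2) := by
  rw [CaL, ev2_ad, ev2_ad, ev2_ad, ev2_sm, ev2_sm, e_sb, ev2_mu, ev2_mu, ev2_ad, ev2_sm, e_F,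
    e_u, v_C0 u y hK, v_UZ u y hK, v_mE u y hK, hr, hnu, Pq.Ca, Pq.F]
  show _ = (C.K : ℝ) * ((C.pt u y).C0 + nu + 2 * ((C.pt u y).hu - (C.pt u y).hz)
    + r * (16 * (u ^ 2 + y ^ 2) + 8 * u) - 16 * (m / 2) * (u ^ 2 + y ^ 2) * (C.pt u y).E)
  push_cast; ring
omit hr in
lemma v_Cg : ev2 u y (C.CgL Nu) = C.K * (C.pt u y).Cg nu := by
  rw [CgL, e_sb, ev2_ad, ev2_sm, v_C0 u y hK, v_UZ u y hK, hnu, Pq.Cg]
  push_cast; ring
lemma v_p11 : ev2 u y (C.p11L m R Nu) = C.K ^ 2 * (C.pt u y).p11 r nu (m / 2) := by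
  rw [p11L, e_sb, ev2_sm, ev2_mu, ev2_ad, ev2_mu, ev2_mu, v_N u y hK m R hr,
    v_Ca u y hK m R Nu hr hnu, v_a1 u y hK m R hr, v_a2 u y hK m R hr, Pq.p11]
  push_cast; ring
omit hnu in
lemma v_p12 : ev2 u y (C.p12L m R) = C.K ^ 2 * (C.pt u y).p12 r (m / 2) := by
  rw [p12L, e_sb, ev2_sm, ev2_mu, ev2_ad, ev2_mu, ev2_mu, v_N u y hK m R hr,
    v_Cb u y hK R hr, v_a1 u y hK m R hr, v_a2 u y hK m R hr, v_b1 u y hK, v_b2 u y hK R hr,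
    Pq.p12]
  push_cast; ring
lemma v_p22 : ev2 u y (C.p22L m R Nu) = C.K ^ 2 * (C.pt u y).p22 r nu (m / 2) := by
  rw [p22L, e_sb, ev2_sm, ev2_mu, ev2_ad, ev2_mu, ev2_mu, v_N u y hK m R hr,
    v_Cg u y hK Nu hnu, v_b1 u y hK, v_b2 u y hK R hr, Pq.p22]
  push_cast; ring
end val

end C3

end Pool.Agent.Helper71.EK3
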