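import Pool.Agent.Helper52.EK.Defs
import Pool.Agent.Helper71.EK.Alg
import Pool.Agent.Helper71.EK3.Gq

/-!
The field `G(m) = g(|m|²) m`, `g = 2/(1+n)` for `n ≥ 1`, `g = (3-n)/2` for `n ≤ 1`.
-/

set_option autoImplicit false

open Complex
open scoped ComplexConjugate

namespace Pool.Agent.Helper71.EK3

open Pool.Agent.Helper52.EK Pool.Agent.Helper71.EK

/-- the tangential field -/
noncomputable def Gt (m : ℂ) : ℂ := ((gg (‖m‖ ^ 2) : ℝ) : ℂ) * m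

lemma gg_one : gg 1 = 1 := by unfold gg; norm_num

lemma gg_nonneg {n : ℝ} (hn : 0 ≤ n) : 0 ≤ gg n := by
  unfold gg
  split_ifs with h
  · linarith
  · positivity

lemma gg_le {n : ℝ} (hn : 0 ≤ n) : gg n ≤ 3 / 2 := by
  unfold gg
  split_ifs with h
  · linarith
  · push Not at h
    rw [div_le_iff₀ (by linarith)]
    linarith

lemma gg_mul_le {r : ℝ} (hr : 0 ≤ r) : gg (r ^ 2) * r ≤ 1 := by
  unfold gg
  split_ifs with h
  · have h1 : r ≤ 1 := by nlinarith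
    nlinarith [mul_nonneg (sq_nonneg (r - 1)) (by linarith : 0 ≤ r + 2)]
  · rw [div_mul_eq_mul_div, div_le_one (by positivity)]
    nlinarith [sq_nonneg (r - 1)]

/-- the key bound for the Lipschitz constant -/
lemma gg_sub_le {r t : ℝ} (ht : 0 ≤ t) (h : t ≤ r) :
    |gg (r ^ 2) - gg (t ^ 2)| * t ≤ r - t := by
  have hr : 0 ≤ r := ht.trans h
  have lo : ∀ {r t : ℝ}, 0 ≤ t → t ≤ r → r ≤ 1 → |gg (r ^ 2) - gg (t ^ 2)| * t ≤ r - t := by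
    intro r t ht h hr1
    have hr : 0 ≤ r := ht.trans h
    have e1 : r ^ 2 ≤ 1 := by nlinarith
    have e2 : t ^ 2 ≤ 1 := by nlinarith
    have e3 : gg (r ^ 2) - gg (t ^ 2) = -((r - t) * (r + t) / 2) := by
      unfold gg
      rw [if_pos e1, if_pos e2]; ring
    have h1 : 0 ≤ (r - t) * (r + t) / 2 := by
      have : 0 ≤ r - t := by linarith
      positivity
    rw [e3, abs_neg, abs_of_nonneg h1]
    have h2 : (r + t) * t ≤ 2 := by nlinarith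
    have h3 : 0 ≤ r - t := by linarith
    nlinarith
  have hi : ∀ {r t : ℝ}, 1 ≤ t → t ≤ r → |gg (r ^ 2) - gg (t ^ 2)| * t ≤ r - t := by
    intro r t ht h
    have g1 : ∀ {z : ℝ}, 1 ≤ z → gg (z ^ 2) = 2 / (1 + z ^ 2) := by
      intro z hz
      rcases eq_or_lt_of_le hz with h0 | h0
      · rw [← h0]; norm_num [gg]
      · unfold gg
        rw [if_neg (by push Not; nlinarith)]
    have hr : 1 ≤ r := ht.trans h
    have e3 : gg (r ^ 2) - gg (t ^ 2) =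
        -((r - t) * (2 * (r + t)) / ((1 + r ^ 2) * (1 + t ^ 2))) := by
      rw [g1 hr, g1 ht]; field_simp; ring
    have h3 : 0 ≤ r - t := by linarith
    have h1 : 0 ≤ (r - t) * (2 * (r + t)) / ((1 + r ^ 2) * (1 + t ^ 2)) := by
      have : 0 ≤ r + t := by linarith
      positivity
    rw [e3, abs_neg, abs_of_nonneg h1, div_mul_eq_mul_div, div_le_iff₀ (by positivity)]
    have h4 : 2 * (r + t) * t ≤ (1 + r ^ 2) * (1 + t ^ 2) := by
      nlinarith [sq_nonneg (r * t - 1), mul_nonneg h3 (by linarith : 0 ≤ r + t)]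
    nlinarith
  rcases le_total r 1 with hr1 | hr1
  · exact lo ht h hr1
  · rcases le_total t 1 with ht1 | ht1
    · have a1 := lo ht ht1 le_rfl
      have a2 := hi le_rfl hr1
      have e1 : |gg (r ^ 2) - gg (t ^ 2)| ≤
          |gg (r ^ 2) - gg (1 ^ 2)| + |gg (1 ^ 2) - gg (t ^ 2)| := by
        calc |gg (r ^ 2) - gg (t ^ 2)|
            = |(gg (r ^ 2) - gg (1 ^ 2)) + (gg (1 ^ 2) - gg (t ^ 2))| := by ring_nf
          _ ≤ _ := abs_add_le _ _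
      have e2 : |gg (r ^ 2) - gg (1 ^ 2)| * t ≤ |gg (r ^ 2) - gg (1 ^ 2)| * 1 :=
        mul_le_mul_of_nonneg_left ht1 (abs_nonneg _)
      calc |gg (r ^ 2) - gg (t ^ 2)| * t
          ≤ (|gg (r ^ 2) - gg (1 ^ 2)| + |gg (1 ^ 2) - gg (t ^ 2)|) * t :=
            mul_le_mul_of_nonneg_right e1 ht
        _ ≤ (r - 1) + (1 - t) := by nlinarith
        _ = r - t := by ring
    · exact hi ht1 h

theorem Gt_lip : GLip Gt (5 / 2) := by
  have hlip : ∀ m m' : ℂ, ‖m'‖ ≤ ‖m‖ → ‖Gt m - Gt m'‖ ≤ 5 / 2 * ‖m - m'‖ := by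
    intro m m' h
    have e : Gt m - Gt m' = ((gg (‖m‖ ^ 2) : ℝ) : ℂ) * (m - m')
        + ((gg (‖m‖ ^ 2) - gg (‖m'‖ ^ 2) : ℝ) : ℂ) * m' := by
      unfold Gt; push_cast; ring
    have h1 := gg_sub_le (norm_nonneg m') h
    have h2 : ‖m‖ - ‖m'‖ ≤ ‖m - m'‖ := norm_sub_norm_le _ _
    have h3 := gg_le (sq_nonneg ‖m‖)
    have h4 := gg_nonneg (sq_nonneg ‖m‖)
    calc ‖Gt m - Gt m'‖ ≤ ‖((gg (‖m‖ ^ 2) : ℝ) : ℂ) * (m - m')‖
          + ‖((gg (‖m‖ ^ 2) - gg (‖m'‖ ^ 2) : ℝ) : ℂ) * m'‖ := by rw [e]; exact norm_add_le _ _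
      _ = gg (‖m‖ ^ 2) * ‖m - m'‖ + |gg (‖m‖ ^ 2) - gg (‖m'‖ ^ 2)| * ‖m'‖ := by
        rw [norm_mul, norm_mul, Complex.norm_real, Complex.norm_real, Real.norm_eq_abs,
          Real.norm_eq_abs, abs_of_nonneg h4]
      _ ≤ 3 / 2 * ‖m - m'‖ + ‖m - m'‖ := by
        have := norm_nonneg (m - m')
        nlinarith
      _ = _ := by ring
  have hle : ∀ m : ℂ, ‖Gt m‖ ≤ 1 := by
    intro m
    rw [Gt, norm_mul, Complex.norm_real, Real.norm_eq_abs,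
      abs_of_nonneg (gg_nonneg (sq_nonneg ‖m‖))]
    exact gg_mul_le (norm_nonneg m)
  refine ⟨hle, ?_, ?_⟩
  · intro m m'
    rcases le_total ‖m'‖ ‖m‖ with h | h
    · exact hlip m m' h
    · rw [norm_sub_rev (Gt m), norm_sub_rev m]
      exact hlip m' m h
  · intro u m hu
    have e : Gt (u * m) - Gt m = (u - 1) * Gt m := by
      unfold Gt
      rw [norm_mul, hu, one_mul]; ring
    rw [e, norm_mul]
    have := hle m
    have h2 := norm_nonneg (u - 1)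
    nlinarith

lemma Gt_sub (m : ℂ) {s c : ℝ} (h : s ^ 2 + c ^ 2 = 1) :
    ‖Gt m - e0 s c‖ ^ 2 = gg (‖m‖ ^ 2) * ‖m - e0 s c‖ ^ 2
      - (1 - gg (‖m‖ ^ 2)) * (gg (‖m‖ ^ 2) * ‖m‖ ^ 2 - 1) := by
  have he : ‖e0 s c‖ ^ 2 = 1 := by rw [e0_norm h]; norm_num
  generalize hg : gg (‖m‖ ^ 2) = g
  rw [Gt, hg, ← Complex.normSq_eq_norm_sq (_ - _), ← Complex.normSq_eq_norm_sq (_ - _),
    Complex.normSq_sub, Complex.normSq_sub, Complex.normSq_mul, Complex.normSq_ofReal,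
    Complex.normSq_eq_norm_sq m, Complex.normSq_eq_norm_sq (e0 s c), he]
  have e1 : ((g : ℂ) * m * (starRingEnd ℂ) (e0 s c)).re = g * (m * (starRingEnd ℂ) (e0 s c)).re := by
    rw [mul_assoc, Complex.re_ofReal_mul]
  rw [e1]
  ring

/-- the pointwise inequality from the three conditions -/
theorem Gt_le (m : ℂ) {s c E k σ c2 ρ2 : ℝ} (h : s ^ 2 + c ^ 2 = 1) (h0 : σ ≤ E)
    (h1 : ‖m - e0 s c‖ ^ 2 + k ^ 2 - (2 * k - k ^ 2 + σ) / 2 * (‖m‖ ^ 2 - 1) ≤ E)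
    (h2 : 3 / 2 * ‖m - e0 s c‖ ^ 2 - c2 - ρ2 * (‖m‖ ^ 2 - 1) ≤ E)
    (hA : 0 ≤ (σ - 3 * k ^ 2) / 2 - c2)
    (hB : 0 ≤ (σ - 3 * k ^ 2) / 2 - c2 + (ρ2 - (2 * k - k ^ 2 + σ) / 2)) :
    ‖Gt m - e0 s c‖ ^ 2 ≤ E := by
  rw [Gt_sub m h]
  rcases le_or_gt (‖m‖ ^ 2) 1 with h4 | h4
  · have hg : gg (‖m‖ ^ 2) = (3 - ‖m‖ ^ 2) / 2 := by unfold gg; rw [if_pos h4]
    rw [hg]
    exact in_le (sq_nonneg _) h4 h1 h2 hA hB
  · have hg : gg (‖m‖ ^ 2) = 2 / (1 + ‖m‖ ^ 2) := by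
      unfold gg; rw [if_neg (by push Not; exact h4)]
    rw [hg]
    exact out_le h4.le h0 h1

end Pool.Agent.Helper71.EK3
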